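import Pool.Agent.helper71.FT.Spec
set_option autoImplicit false
namespace Pool.Agent.FT

theorem EXB_cnt (x : ℝ) (h0 : 0 < x) (h1 : x ≤ 1) (n m : ℕ) :
    (((Finset.range n).powerset.filter fun S : Finset ℕ => S.card ≤ m).card : ℝ) * x ^ m ≤ (1 + x) ^ n := by
  have e1 : ∑ t ∈ (Finset.range n).powerset, x ^ t.card * (1 : ℝ) ^ ((Finset.range n).card - t.card) =
      (x + 1) ^ (Finset.range n).card := Finset.sum_pow_mul_eq_add_pow x 1 (Finset.range n)
  rw [Finset.card_range] at e1
  rw [add_comm 1 x, ← e1]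
  calc (((Finset.range n).powerset.filter fun S : Finset ℕ => S.card ≤ m).card : ℝ) * x ^ m
      = ∑ S ∈ (Finset.range n).powerset.filter fun S : Finset ℕ => S.card ≤ m, x ^ m := by
        rw [Finset.sum_const, nsmul_eq_mul]
    _ ≤ ∑ S ∈ (Finset.range n).powerset.filter fun S : Finset ℕ => S.card ≤ m, x ^ S.card * (1 : ℝ) ^ (n - S.card) := by
        refine Finset.sum_le_sum fun S hS => ?_
        rw [one_pow, mul_one]
        exact pow_le_pow_of_le_one h0.le h1 (Finset.mem_filter.1 hS).2
    _ ≤ ∑ S ∈ (Finset.range n).powerset, x ^ S.card * (1 : ℝ) ^ (n - S.card) := by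
        refine Finset.sum_le_sum_of_subset_of_nonneg (Finset.filter_subset _ _) fun S _ _ => ?_
        positivity

theorem EXB_proof : EXB_stmt := by
  intro ε hε
  set x : ℝ := min 1 (ε / 2) with hx
  have h0 : 0 < x := lt_min one_pos (by linarith)
  have h1 : x ≤ 1 := min_le_left _ _
  have h2 : x ≤ ε / 2 := min_le_right _ _
  set L : ℝ := Real.log (1 / x) with hL
  have hL0 : 0 ≤ L := Real.log_nonneg (by rw [le_div_iff₀ h0]; linarith)
  have hxL : x = Real.exp (-L) := by
    rw [hL, one_div, Real.log_inv, neg_neg, Real.exp_log h0]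
  refine ⟨ε / (2 * (L + 1)), by positivity, fun n m hm => ?_⟩
  have h3 := EXB_cnt x h0 h1 n m
  have h4 : (1 + x) ^ n ≤ Real.exp (ε / 2 * n) := by
    calc (1 + x) ^ n ≤ (Real.exp (ε / 2)) ^ n := by
          refine pow_le_pow_left₀ (by linarith) ?_ n
          have := Real.add_one_le_exp (ε / 2)
          linarith
      _ = Real.exp (ε / 2 * n) := by rw [← Real.exp_nat_mul, mul_comm]
  have h5 : x ^ m = Real.exp (-(L * m)) := by
    conv_lhs => rw [hxL]
    rw [← Real.exp_nat_mul]
    congr 1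
    ring
  have h6 : L * m ≤ ε / 2 * n := by
    have a1 : L * m ≤ (L + 1) * m := by
      have : (0 : ℝ) ≤ m := m.cast_nonneg
      linarith
    have a2 : (L + 1) * m ≤ (L + 1) * (ε / (2 * (L + 1)) * n) := mul_le_mul_of_nonneg_left hm (by linarith)
    have a3 : (L + 1) * (ε / (2 * (L + 1)) * n) = ε / 2 * n := by
      field_simp
    linarith
  rw [h5] at h3
  have h7 := h3.trans h4
  have h8 : (((Finset.range n).powerset.filter fun S : Finset ℕ => S.card ≤ m).card : ℝ) * Real.exp (-(L * m)) * Real.exp (L * m) ≤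
      Real.exp (ε / 2 * n) * Real.exp (L * m) := mul_le_mul_of_nonneg_right h7 (Real.exp_pos _).le
  rw [mul_assoc, ← Real.exp_add, neg_add_cancel, Real.exp_zero, mul_one, ← Real.exp_add] at h8
  refine h8.trans (Real.exp_le_exp.2 ?_)
  linarith

end Pool.Agent.FT
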